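import Mathlib
import Pool.Agent.H57.ColDefs
import Pool.Agent.H57.ColD

namespace Pool.Agent.Results.MP_f7abf1_nt.Lower75

open Pool.Agent.H57.Col

theorem result : ∀ N : ℕ, ∃ n : ℕ, N < n ∧
    ∀ k : ℕ, T^[k] n = 1 → (15 / 2 : ℝ) * Real.log n ≤ k := by
  intro N
  obtain ⟨n, hn, h⟩ := long_stop N
  refine ⟨n, hn, fun k hk => ?_⟩
  by_contra hlt
  exact h k (by norm_num at hlt ⊢; linarith) hk

end Pool.Agent.Results.MP_f7abf1_nt.Lower75
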